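import Mathlib
import Pool.Agent.OrthSysReal

set_option autoImplicit false

namespace Pool.Agent.Results.MP_ae49d3_an.NoSummation

/-- `φ` is an orthogonal system of continuous functions on `[0,1]`, none identically zero,
which is closed in `C[0,1]` with the sup norm. The index `n = 0, 1, 2, ...` stands for
`φ_{n+1}`. -/
def IsClosedOrthogonalSystem (φ : ℕ → ℝ → ℝ) : Prop :=
  (∀ n, ContinuousOn (φ n) (Set.Icc (0:ℝ) 1)) ∧
  (∀ n, ∃ t ∈ Set.Icc (0:ℝ) 1, φ n t ≠ 0) ∧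
  (∀ m n : ℕ, m ≠ n → ∫ t in (0:ℝ)..1, φ m t * φ n t = 0) ∧
  (∀ g : ℝ → ℝ, ContinuousOn g (Set.Icc (0:ℝ) 1) → ∀ ε : ℝ, ε > 0 →
    ∃ s : Finset ℕ, ∃ c : ℕ → ℝ,
      ∀ t ∈ Set.Icc (0:ℝ) 1, |g t - ∑ i ∈ s, c i * φ i t| < ε)

/-- the coefficient of `f` at `φ n` -/
noncomputable def coeff (φ : ℕ → ℝ → ℝ) (f : ℝ → ℝ) (n : ℕ) : ℝ :=
  (∫ t in (0:ℝ)..1, f t * φ n t) / (∫ t in (0:ℝ)..1, φ n t * φ n t)

/-- the partial sum of the expansion of `f` with the first `N + 1` terms -/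
noncomputable def partialSum (φ : ℕ → ℝ → ℝ) (f : ℝ → ℝ) (N : ℕ) (t : ℝ) : ℝ :=
  ∑ n ∈ Finset.range (N + 1), coeff φ f n * φ n t

/-- the expansion of `f` is uniformly summable to `f` by the matrix `c`: for every `m` the series
`σ m = ∑ N, c m N * partialSum N` converges uniformly on `[0,1]`, and `σ m → f` uniformly on
`[0,1]` as `m → ∞`. -/
def UniformlySummable (φ : ℕ → ℝ → ℝ) (c : ℕ → ℕ → ℝ) (f : ℝ → ℝ) : Prop :=
  ∃ σ : ℕ → ℝ → ℝ,
    (∀ m, TendstoUniformlyOn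
      (fun (K : ℕ) (t : ℝ) => ∑ N ∈ Finset.range K, c m N * partialSum φ f N t)
      (σ m) Filter.atTop (Set.Icc (0:ℝ) 1)) ∧
    TendstoUniformlyOn σ f Filter.atTop (Set.Icc (0:ℝ) 1)

/-- There is an orthogonal system of continuous functions, closed in `C[0,1]`, such that no
matrix sums uniformly the expansions of all continuous functions (in fact one continuous
function, the constant one, is not summed by any matrix). -/
theorem result :
    ∃ φ : ℕ → ℝ → ℝ, IsClosedOrthogonalSystem φ ∧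
      ∃ f : ℝ → ℝ, ContinuousOn f (Set.Icc (0:ℝ) 1) ∧
        ∀ c : ℕ → ℕ → ℝ, ¬ UniformlySummable φ c f := by
  obtain ⟨φ, h1, h2, h3, h4, h5⟩ := Pool.Agent.OrthSysReal.exists_closed_system
  refine ⟨φ, ⟨fun n => (h1 n).continuousOn, h2, h3, h4⟩, fun _ => 1, continuousOn_const, ?_⟩
  rintro c ⟨σ, hσ1, hσ2⟩
  have h0 : (0:ℝ) ∈ Set.Icc (0:ℝ) 1 := by simp
  have hterm : ∀ n, coeff φ (fun _ => 1) n * φ n 0 = 0 := by
    intro n
    rcases h5 n with h | h
    · rw [h, mul_zero]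
    · unfold coeff
      simp only [one_mul, h, zero_div, zero_mul]
  have hS : ∀ N, partialSum φ (fun _ => 1) N 0 = 0 := by
    intro N
    unfold partialSum
    exact Finset.sum_eq_zero (fun n _ => hterm n)
  have hσ0 : ∀ m, σ m 0 = 0 := by
    intro m
    have ht := (hσ1 m).tendsto_at h0
    simp only [hS, mul_zero, Finset.sum_const_zero] at ht
    exact (tendsto_nhds_unique ht tendsto_const_nhds)
  have hlim := hσ2.tendsto_at h0
  simp only [hσ0] at hlim
  have := tendsto_nhds_unique hlim tendsto_const_nhds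
  norm_num at this

end Pool.Agent.Results.MP_ae49d3_an.NoSummation
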